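import Pool.Agent.Q260.DL.WPn
import Pool.Agent.Q260.DS.AllP

/-!
# One derivative decides the Riemann hypothesis up to `ε`: a single function of the class `WP`
-/

set_option autoImplicit false

namespace Pool.Agent.Q260.DL

open Filter Topology Complex
open Pool.Agent.Q260.DS Q240.OW Q240.GS
open scoped ComplexConjugate

/-- the hypotheses, centred at the critical line `Re z = 0` -/
structure OD (m : ℕ) (B N : ℝ) (μ : Fin m → ℂ) (Φ : ℂ → ℂ) : Prop where
  hm : 1 ≤ m
  hB : 1 ≤ B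
  W : WP 0 B N μ (fun s => Φ (s - 1 / 2))
  diff : Differentiable ℂ Φ
  sym : ∀ z : ℂ, Φ (-(conj z)) = conj (Φ z)
  strip : ∀ (n : ℕ) (z : ℂ), iteratedDeriv n Φ z = 0 → |z.re| ≤ 1 / 2

variable {m : ℕ} {B N : ℝ} {μ : Fin m → ℂ} {Φ : ℂ → ℂ}

lemma it_rep (f : ℂ → ℂ) (k : ℕ) : It f (List.replicate k 0) = iteratedDeriv k f := by
  induction k with
  | zero => rw [List.replicate_zero, iteratedDeriv_zero]; rfl
  | succ k ih =>
    rw [List.replicate_succ, iteratedDeriv_succ, ← ih]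
    funext s
    show deriv (It f (List.replicate k 0)) s - ((0 : ℝ) : ℂ) * _ = _
    rw [Complex.ofReal_zero, zero_mul, sub_zero]

lemma it_shift (k : ℕ) (s : ℂ) :
    It (fun s => Φ (s - 1 / 2)) (List.replicate k 0) s = iteratedDeriv k Φ (s - 1 / 2) := by
  rw [it_rep]
  have h := congrFun (iteratedDeriv_comp_sub_const k Φ (1 / 2 : ℂ)) s
  exact h

/-- the conductor at height `y` -/
lemma cnd_log (hN : 1 ≤ N) (hm : 1 ≤ m) (μ : Fin m → ℂ) : ∃ K T1 : ℝ, 1 ≤ K ∧ 3 ≤ T1 ∧ ∀ y : ℝ, T1 ≤ y →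
    1 ≤ Real.log y ∧ Real.log y ≤ 2 * Real.log (cnd N μ y) ∧ Real.log (cnd N μ y) ≤ K * Real.log y := by
  obtain ⟨M, hM⟩ : ∃ M : ℝ, M = ∑ j, ‖μ j‖ := ⟨_, rfl⟩
  have hM0 : 0 ≤ M := by rw [hM]; positivity
  have hMj : ∀ j, ‖μ j‖ ≤ M := fun j => by
    rw [hM]
    exact Finset.single_le_sum (f := fun j => ‖μ j‖) (fun j _ => norm_nonneg _) (Finset.mem_univ j)
  refine ⟨Real.log N + m * Real.log (2 + M) + m + 1, max 3 (4 * (1 + M) ^ 2), ?_, le_max_left _ _, fun y hy => ?_⟩
  · have h1 := Real.log_nonneg hN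
    have h2 : 0 ≤ (m : ℝ) * Real.log (2 + M) := mul_nonneg (Nat.cast_nonneg m) (Real.log_nonneg (by linarith))
    have h3 : (0 : ℝ) ≤ m := Nat.cast_nonneg m
    linarith
  have hy3 : 3 ≤ y := (le_max_left _ _).trans hy
  have hyM : 4 * (1 + M) ^ 2 ≤ y := (le_max_right _ _).trans hy
  have hl : 1 ≤ Real.log y := by
    rw [Real.le_log_iff_exp_le (by linarith)]
    linarith [Real.exp_one_lt_three]
  have hyI : ‖(y : ℂ) * I‖ = y := by
    rw [norm_mul, Complex.norm_I, mul_one, Complex.norm_real, Real.norm_eq_abs, abs_of_nonneg (by linarith)]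
  have hup : ∀ j, 1 + ‖(y : ℂ) * I - μ j‖ ≤ (2 + M) * y := fun j => by
    have h1 := norm_sub_le ((y : ℂ) * I) (μ j)
    rw [hyI] at h1
    have := hMj j
    nlinarith
  have hlow : ∀ j, y - M ≤ ‖(y : ℂ) * I - μ j‖ := fun j => by
    have h1 := norm_sub_norm_le ((y : ℂ) * I) (μ j)
    rw [hyI] at h1
    have := hMj j
    linarith
  have hprodpos : ∀ j, 0 < 1 + ‖(y : ℂ) * I - μ j‖ := fun j => by positivity
  have hcpos : 1 ≤ cnd N μ y := by
    unfold cnd
    have := one_le_prod μ y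
    nlinarith
  refine ⟨hl, ?_, ?_⟩
  · -- one factor is at least `sqrt y`
    obtain ⟨j0⟩ : Nonempty (Fin m) := ⟨⟨0, by omega⟩⟩
    have h1 : 1 + ‖(y : ℂ) * I - μ j0‖ ≤ ∏ j, (1 + ‖(y : ℂ) * I - μ j‖) := by
      rw [← Finset.mul_prod_erase Finset.univ (fun j => 1 + ‖(y : ℂ) * I - μ j‖) (Finset.mem_univ j0)]
      have h2 : 1 ≤ ∏ j ∈ Finset.univ.erase j0, (1 + ‖(y : ℂ) * I - μ j‖) := by
        refine Finset.prod_induction _ (fun x => (1 : ℝ) ≤ x) (fun a b ha hb => ?_) le_rfl fun j _ => ?_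
        · nlinarith
        · linarith [norm_nonneg ((y : ℂ) * I - μ j)]
      have h3 := (hprodpos j0).le
      nlinarith
    have h2 := hlow j0
    have hs : Real.sqrt y ^ 2 = y := Real.sq_sqrt (by linarith)
    have hs0 := Real.sqrt_nonneg y
    have hsM : 2 * (1 + M) ≤ Real.sqrt y := by
      apply Real.le_sqrt_of_sq_le
      nlinarith
    have h3 : Real.sqrt y ≤ cnd N μ y := by
      unfold cnd
      have h4 : Real.sqrt y ≤ 1 + ‖(y : ℂ) * I - μ j0‖ := by nlinarith
      have h5 := h4.trans h1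
      have h6 : 0 ≤ ∏ j, (1 + ‖(y : ℂ) * I - μ j‖) := hs0.trans h5
      nlinarith
    have h4 := Real.log_le_log (Real.sqrt_pos.2 (by linarith)) h3
    rw [Real.log_sqrt (by linarith)] at h4
    linarith
  · unfold cnd
    have h1 : Real.log (∏ j, (1 + ‖(y : ℂ) * I - μ j‖)) = ∑ j, Real.log (1 + ‖(y : ℂ) * I - μ j‖) :=
      Real.log_prod (fun j _ => (hprodpos j).ne')
    have hpp : 0 < ∏ j, (1 + ‖(y : ℂ) * I - μ j‖) := Finset.prod_pos fun j _ => hprodpos j
    rw [Real.log_mul (by linarith) hpp.ne', h1]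
    have h2 : ∑ j, Real.log (1 + ‖(y : ℂ) * I - μ j‖) ≤ ∑ _j : Fin m, (Real.log (2 + M) + Real.log y) := by
      refine Finset.sum_le_sum fun j _ => ?_
      rw [← Real.log_mul (by linarith) (by linarith)]
      exact Real.log_le_log (hprodpos j) (hup j)
    rw [Finset.sum_const, Finset.card_univ, Fintype.card_fin, nsmul_eq_mul] at h2
    have h3 := Real.log_nonneg hN
    have h4 : 0 ≤ Real.log (2 + M) := Real.log_nonneg (by linarith)
    have h5 : (0 : ℝ) ≤ m := Nat.cast_nonneg m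
    have h6 : Real.log N ≤ Real.log N * Real.log y := by nlinarith
    have h7 : (m : ℝ) * Real.log (2 + M) ≤ m * Real.log (2 + M) * Real.log y := by
      have : 0 ≤ (m : ℝ) * Real.log (2 + M) := by positivity
      nlinarith
    nlinarith

lemma sub_half_re (s : ℂ) : (s - 1 / 2 : ℂ).re = s.re - 1 / 2 := by rw [Complex.sub_re]; norm_num

lemma sub_half_im (s : ℂ) : (s - 1 / 2 : ℂ).im = s.im := by rw [Complex.sub_im]; norm_num

lemma add_half_re (s : ℂ) : (s + 1 / 2 : ℂ).re = s.re + 1 / 2 := by rw [Complex.add_re]; norm_num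

lemma add_half_im (s : ℂ) : (s + 1 / 2 : ℂ).im = s.im := by rw [Complex.add_im]; norm_num

/-- reflection of zeros -/
lemma refl_it (h : OD m B N μ Φ) (n : ℕ) {z : ℂ} (hz : iteratedDeriv n Φ z = 0) :
    ∃ w : ℂ, iteratedDeriv n Φ w = 0 ∧ w.re = |z.re| ∧ w.im = z.im := by
  rcases le_or_gt 0 z.re with h0 | h0
  · exact ⟨z, hz, (abs_of_nonneg h0).symm, rfl⟩
  · refine ⟨-(conj z), ?_, ?_, ?_⟩
    · rw [Pool.Agent.Y671.LD.CirAux.symm_iter h.diff h.sym n z, hz, map_zero, mul_zero]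
    · rw [Complex.neg_re, Complex.conj_re, abs_of_neg h0]
    · rw [Complex.neg_im, Complex.conj_im, neg_neg]

/-- the rate as a function of the height -/
lemma rate_cmp {K : ℝ} (hK : 1 ≤ K) : ∃ D x0 : ℝ, 0 < D ∧ 3 ≤ x0 ∧ ∀ x y : ℝ, x0 ≤ x → x ≤ 2 * y → y ≤ K * x →
    Real.log (Real.log y) / Real.log y ≤ D * (Real.log (Real.log x) / Real.log x) := by
  obtain ⟨E, hE⟩ : ∃ E : ℝ, E = Real.exp (Real.exp 1) := ⟨_, rfl⟩
  refine ⟨4 * (2 + Real.log K), max 3 (max E 4), ?_, le_max_left _ _, fun x y hx h1 h2 => ?_⟩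
  · have := Real.log_nonneg hK
    linarith
  have hx3 : 3 ≤ x := (le_max_left _ _).trans hx
  have hxE : E ≤ x := ((le_max_left _ _).trans (le_max_right _ _)).trans hx
  have hx4 : 4 ≤ x := ((le_max_right _ _).trans (le_max_right _ _)).trans hx
  have hK0 := Real.log_nonneg hK
  have l1 : Real.exp 1 ≤ Real.log x := by
    rw [Real.le_log_iff_exp_le (by linarith), ← hE]
    exact hxE
  have e1 : (2 : ℝ) ≤ Real.exp 1 := by linarith [Real.add_one_le_exp (1 : ℝ)]
  have ll1 : 1 ≤ Real.log (Real.log x) := by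
    rw [Real.le_log_iff_exp_le (by linarith)]
    exact l1
  have hlx : 0 < Real.log x := by linarith
  have hly : Real.log x / 2 ≤ Real.log y := by
    have h3 : Real.sqrt x ≤ y := by
      have hs : Real.sqrt x ^ 2 = x := Real.sq_sqrt (by linarith)
      have hs2 : 2 ≤ Real.sqrt x := by
        apply Real.le_sqrt_of_sq_le
        linarith
      nlinarith
    have h4 := Real.log_le_log (Real.sqrt_pos.2 (by linarith)) h3
    rwa [Real.log_sqrt (by linarith)] at h4
  have hy0 : 0 < y := by linarith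
  have hyK : Real.log y ≤ Real.log K + Real.log x := by
    rw [← Real.log_mul (by linarith) (by linarith)]
    exact Real.log_le_log hy0 h2
  have hly1 : 1 ≤ Real.log y := by linarith
  have hlly : Real.log (Real.log y) ≤ (1 + Real.log K) + Real.log (Real.log x) := by
    have h5 : Real.log y ≤ (1 + Real.log K) * Real.log x := by nlinarith
    have h6 := Real.log_le_log (by linarith) h5
    rw [Real.log_mul (by linarith) hlx.ne'] at h6
    have h7 := Real.log_le_sub_one_of_pos (show 0 < 1 + Real.log K by linarith)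
    linarith
  have h8 : Real.log (Real.log y) ≤ (2 + Real.log K) * Real.log (Real.log x) := by nlinarith
  rw [div_le_iff₀ (by linarith)]
  have h9 : 4 * (2 + Real.log K) * (Real.log (Real.log x) / Real.log x) * Real.log y =
      (2 + Real.log K) * Real.log (Real.log x) * (4 * Real.log y / Real.log x) := by
    field_simp
  rw [h9]
  have h10 : 1 ≤ 4 * Real.log y / Real.log x := by
    rw [le_div_iff₀ hlx]
    linarith
  have h11 : 0 ≤ (2 + Real.log K) * Real.log (Real.log x) := by positivity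
  nlinarith

/-- **one derivative decides** -/
theorem one (h : OD m B N μ Φ) (k : ℕ) :
    (∀ ε : ℝ, 0 < ε → ∃ C : ℝ,
      (∀ (z : ℂ) (σ : ℝ), Φ z = 0 → C ≤ z.im → 0 ≤ σ → σ + ε ≤ |z.re| →
        ∃ w : ℂ, iteratedDeriv k Φ w = 0 ∧ σ < |w.re| ∧ |w.im - z.im| ≤ C * Real.log z.im) ∧
      (∀ (w : ℂ) (σ : ℝ), iteratedDeriv k Φ w = 0 → C ≤ w.im → 0 ≤ σ → σ + ε ≤ |w.re| →
        ∃ z : ℂ, Φ z = 0 ∧ σ < |z.re| ∧ |z.im - w.im| ≤ 4 * k)) ∧
    (∀ θ : ℝ, 0 ≤ θ → (WX (iteratedDeriv k Φ) θ ↔ WX Φ θ)) ∧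
    (LX (iteratedDeriv k Φ) → ∃ C : ℝ, ∀ z : ℂ, Φ z = 0 → C ≤ z.im →
      |z.re| ≤ C * (Real.log (Real.log (Real.log z.im)) / Real.log (Real.log z.im))) := by
  have hN := h.W.one_le
  obtain ⟨K, T1, hK, hT1, hcl⟩ := cnd_log hN h.hm μ
  obtain ⟨M, hM⟩ : ∃ M : ℝ, M = ∑ j, ‖μ j‖ := ⟨_, rfl⟩
  have hM0 : 0 ≤ M := by rw [hM]; positivity
  have hMj : ∀ j, ‖μ j‖ ≤ M := fun j => by
    rw [hM]
    exact Finset.single_le_sum (f := fun j => ‖μ j‖) (fun j _ => norm_nonneg _) (Finset.mem_univ j)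
  have hcs : Li 1 k (List.replicate k 0) := ⟨by simp, fun c hc => by
    rw [List.eq_of_mem_replicate hc]; simp⟩
  obtain ⟨F1, C2, hC2, F2⟩ := fp m 0 k M 1 B h.hm hM0 le_rfl h.hB
  have dict : ∀ ε : ℝ, 0 < ε → ∃ C : ℝ,
      (∀ (z : ℂ) (σ : ℝ), Φ z = 0 → C ≤ z.im → 0 ≤ σ → σ + ε ≤ |z.re| →
        ∃ w : ℂ, iteratedDeriv k Φ w = 0 ∧ σ < |w.re| ∧ |w.im - z.im| ≤ C * Real.log z.im) ∧
      (∀ (w : ℂ) (σ : ℝ), iteratedDeriv k Φ w = 0 → C ≤ w.im → 0 ≤ σ → σ + ε ≤ |w.re| →
        ∃ z : ℂ, Φ z = 0 ∧ σ < |z.re| ∧ |z.im - w.im| ≤ 4 * k) := by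
    intro ε hε
    obtain ⟨C, hC, H⟩ := F1 ε hε
    obtain ⟨H1, H2⟩ := H N μ _ h.W hMj _ hcs
    refine ⟨max (max T1 (Real.exp (2 * C))) (C * K), fun z σ hz hzC hσ hσz => ?_, fun w σ hw hwC hσ hσw => ?_⟩
    · have hzT : T1 ≤ z.im := ((le_max_left _ _).trans (le_max_left _ _)).trans hzC
      have hze : Real.exp (2 * C) ≤ z.im := ((le_max_right _ _).trans (le_max_left _ _)).trans hzC
      obtain ⟨l1, l2, l3⟩ := hcl z.im hzT
      have hz0 : iteratedDeriv 0 Φ z = 0 := by rw [iteratedDeriv_zero]; exact hz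
      obtain ⟨z', hz', r1, r2⟩ := refl_it h 0 hz0
      rw [iteratedDeriv_zero] at hz'
      have hCl : C ≤ Real.log (cnd N μ z.im) := by
        have := (Real.le_log_iff_exp_le (by linarith)).2 hze
        linarith
      obtain ⟨w, w1, w2, w3, w4⟩ := H1 (z' + 1 / 2) (σ + 1 / 2)
        (by show Φ (z' + 1 / 2 - 1 / 2) = 0; rw [add_sub_cancel_right]; exact hz')
        (by rw [add_half_im, r2]; exact hCl) (by linarith) (by rw [add_half_re, r1]; linarith)
      rw [it_shift] at w1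
      rw [add_half_im, r2] at w4
      refine ⟨w - 1 / 2, w1, ?_, ?_⟩
      · rw [sub_half_re]
        exact lt_of_lt_of_le (by linarith) (le_abs_self _)
      · rw [sub_half_im]
        refine w4.trans ?_
        have h5 : C * Real.log (cnd N μ z.im) ≤ C * (K * Real.log z.im) := mul_le_mul_of_nonneg_left l3 (by linarith)
        have h6 : C * K * Real.log z.im ≤ max (max T1 (Real.exp (2 * C))) (C * K) * Real.log z.im :=
          mul_le_mul_of_nonneg_right (le_max_right _ _) (by linarith)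
        linarith
    · have hzT : T1 ≤ w.im := ((le_max_left _ _).trans (le_max_left _ _)).trans hwC
      have hze : Real.exp (2 * C) ≤ w.im := ((le_max_right _ _).trans (le_max_left _ _)).trans hwC
      obtain ⟨l1, l2, l3⟩ := hcl w.im hzT
      obtain ⟨w', hw', r1, r2⟩ := refl_it h k hw
      have hst := h.strip k w' hw'
      have hCl : C ≤ Real.log (cnd N μ w.im) := by
        have := (Real.le_log_iff_exp_le (by linarith)).2 hze
        linarith
      obtain ⟨z, z1, z2, z3⟩ := H2 (w' + 1 / 2) (σ + 1 / 2)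
        (by rw [it_shift, add_sub_cancel_right]; exact hw')
        (by rw [add_half_im, r2]; exact hCl) (by linarith) (by rw [add_half_re, r1]; linarith)
        (by rw [add_half_re]; have := le_abs_self w'.re; linarith)
      rw [add_half_im, r2] at z3
      refine ⟨z - 1 / 2, z1, ?_, ?_⟩
      · rw [sub_half_re]
        exact lt_of_lt_of_le (by linarith) (le_abs_self _)
      · rw [sub_half_im]
        exact z3
  have hwx : ∀ θ : ℝ, 0 ≤ θ → (WX (iteratedDeriv k Φ) θ ↔ WX Φ θ) := by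
    intro θ hθ
    constructor
    · intro hw ε hε
      obtain ⟨C, H1, -⟩ := dict (ε / 2) (by linarith)
      obtain ⟨T, hT⟩ := hw (ε / 2) (by linarith)
      obtain ⟨T2, hT2⟩ : ∃ T2 : ℝ, ∀ y : ℝ, T2 ≤ y → |T| + 1 + |C| * Real.log y ≤ y := by
        have h1 := (Real.isLittleO_log_id_atTop.bound (c := 1 / (2 * (|C| + 1))) (by positivity))
        obtain ⟨T', hT'⟩ := eventually_atTop.1 h1
        refine ⟨max (max T' 1) (2 * (|T| + 1)), fun y hy => ?_⟩
        have y1 : T' ≤ y := ((le_max_left _ _).trans (le_max_left _ _)).trans hy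
        have y2 : 1 ≤ y := ((le_max_right _ _).trans (le_max_left _ _)).trans hy
        have y3 : 2 * (|T| + 1) ≤ y := (le_max_right _ _).trans hy
        have h2 := hT' y y1
        simp only [id, Real.norm_eq_abs] at h2
        rw [abs_of_nonneg (Real.log_nonneg y2), abs_of_nonneg (by linarith : (0 : ℝ) ≤ y)] at h2
        have h3 := abs_nonneg C
        have h4 : |C| * Real.log y ≤ |C| * (1 / (2 * (|C| + 1)) * y) := mul_le_mul_of_nonneg_left h2 h3
        have h5 : |C| * (1 / (2 * (|C| + 1)) * y) = (|C| / (|C| + 1)) * (y / 2) := by field_simp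
        have h6 : |C| / (|C| + 1) ≤ 1 := by rw [div_le_one (by positivity)]; linarith
        have h7 : (|C| / (|C| + 1)) * (y / 2) ≤ 1 * (y / 2) := mul_le_mul_of_nonneg_right h6 (by linarith)
        linarith
      refine ⟨max (max C T2) 1, fun z hz h0 => ?_⟩
      by_contra hcon
      push Not at hcon
      have z1 : C ≤ z.im := ((le_max_left _ _).trans (le_max_left _ _)).trans hz
      have z2 : T2 ≤ z.im := ((le_max_right _ _).trans (le_max_left _ _)).trans hz
      have z3 : 1 ≤ z.im := (le_max_right _ _).trans hz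
      obtain ⟨w, w1, w2, w3⟩ := H1 z (θ + ε / 2) h0 z1 (by linarith) (by linarith)
      have h1 := hT2 z.im z2
      have h2 := (abs_le.1 w3).1
      have h3 : C * Real.log z.im ≤ |C| * Real.log z.im :=
        mul_le_mul_of_nonneg_right (le_abs_self C) (Real.log_nonneg z3)
      have h4 := le_abs_self T
      have := hT w (by linarith) w1
      linarith
    · intro hw ε hε
      obtain ⟨C, -, H2⟩ := dict (ε / 2) (by linarith)
      obtain ⟨T, hT⟩ := hw (ε / 2) (by linarith)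
      refine ⟨max C (T + 4 * k), fun w hwi h0 => ?_⟩
      by_contra hcon
      push Not at hcon
      obtain ⟨z, z1, z2, z3⟩ := H2 w (θ + ε / 2) h0 ((le_max_left _ _).trans hwi) (by linarith) (by linarith)
      have h1 := (le_max_right C (T + 4 * k)).trans hwi
      have h2 := (abs_le.1 z3).1
      have := hT z (by linarith) z1
      linarith
  refine ⟨dict, hwx, fun hl => ?_⟩
  obtain ⟨T, hT⟩ := hl
  obtain ⟨D, x0, hD, hx0, hrc⟩ := rate_cmp hK
  obtain ⟨T2, hT2⟩ : ∃ T2 : ℝ, ∀ y : ℝ, T2 ≤ y → |T| + 1 + C2 * K * Real.log y ≤ y := by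
    have hCK : 0 ≤ C2 * K := by positivity
    have h1 := (Real.isLittleO_log_id_atTop.bound (c := 1 / (2 * (C2 * K + 1))) (by positivity))
    obtain ⟨T', hT'⟩ := eventually_atTop.1 h1
    refine ⟨max (max T' 1) (2 * (|T| + 1)), fun y hy => ?_⟩
    have y1 : T' ≤ y := ((le_max_left _ _).trans (le_max_left _ _)).trans hy
    have y2 : 1 ≤ y := ((le_max_right _ _).trans (le_max_left _ _)).trans hy
    have y3 : 2 * (|T| + 1) ≤ y := (le_max_right _ _).trans hy
    have h2 := hT' y y1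
    simp only [id, Real.norm_eq_abs] at h2
    rw [abs_of_nonneg (Real.log_nonneg y2), abs_of_nonneg (by linarith : (0 : ℝ) ≤ y)] at h2
    have h4 : C2 * K * Real.log y ≤ C2 * K * (1 / (2 * (C2 * K + 1)) * y) := mul_le_mul_of_nonneg_left h2 hCK
    have h5 : C2 * K * (1 / (2 * (C2 * K + 1)) * y) = (C2 * K / (C2 * K + 1)) * (y / 2) := by field_simp
    have h6 : C2 * K / (C2 * K + 1) ≤ 1 := by rw [div_le_one (by positivity)]; linarith
    have h7 : (C2 * K / (C2 * K + 1)) * (y / 2) ≤ 1 * (y / 2) := mul_le_mul_of_nonneg_right h6 (by linarith)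
    linarith
  obtain ⟨W, hW⟩ : ∃ W : ℝ, W = max (max T1 T2) (max (Real.exp (2 * C2)) (Real.exp x0)) := ⟨_, rfl⟩
  refine ⟨max W (C2 * D), fun z hz hzC => ?_⟩
  have z0 : W ≤ z.im := (le_max_left _ _).trans hzC
  rw [hW] at z0
  have z1 : T1 ≤ z.im := ((le_max_left _ _).trans (le_max_left _ _)).trans z0
  have z2 : T2 ≤ z.im := ((le_max_right _ _).trans (le_max_left _ _)).trans z0
  have z3 : Real.exp (2 * C2) ≤ z.im := ((le_max_left _ _).trans (le_max_right _ _)).trans z0
  have z4 : Real.exp x0 ≤ z.im := ((le_max_right _ _).trans (le_max_right _ _)).trans z0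
  obtain ⟨l1, l2, l3⟩ := hcl z.im z1
  have hzp : 0 < z.im := by linarith
  have hxl : x0 ≤ Real.log z.im := (Real.le_log_iff_exp_le hzp).2 z4
  have hCl : C2 ≤ Real.log (cnd N μ z.im) := by
    have := (Real.le_log_iff_exp_le hzp).2 z3
    linarith
  have key := F2 N μ _ h.W hMj _ hcs z.im hCl (fun s hs hs1 hs2 => by
    rw [it_shift] at hs
    by_contra hcon
    push Not at hcon
    have h1 := hT2 z.im z2
    have h2 := (abs_le.1 hcon).1
    have h3 : C2 * Real.log (cnd N μ z.im) ≤ C2 * (K * Real.log z.im) := mul_le_mul_of_nonneg_left l3 (by linarith)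
    have h4 := le_abs_self T
    have h5 := hT (s - 1 / 2) (by rw [sub_half_im]; linarith) hs
    rw [sub_half_re] at h5
    linarith) (z + 1 / 2) (by show Φ (z + 1 / 2 - 1 / 2) = 0; rw [add_sub_cancel_right]; exact hz)
    (add_half_im z)
  rw [add_half_re, add_sub_cancel_right] at key
  refine key.trans ?_
  have h1 := hrc (Real.log z.im) (Real.log (cnd N μ z.im)) hxl l2 l3
  have h2 : C2 * (Real.log (Real.log (Real.log (cnd N μ z.im))) / Real.log (Real.log (cnd N μ z.im))) ≤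
      C2 * (D * (Real.log (Real.log (Real.log z.im)) / Real.log (Real.log z.im))) :=
    mul_le_mul_of_nonneg_left h1 (by linarith)
  refine h2.trans ?_
  rw [← mul_assoc]
  refine mul_le_mul_of_nonneg_right (le_max_right _ _) ?_
  have h3 : 1 ≤ Real.log (Real.log z.im) := by
    have h4 : Real.exp 1 ≤ Real.log z.im := by linarith [Real.exp_one_lt_three]
    exact (Real.le_log_iff_exp_le (by linarith)).2 h4
  exact div_nonneg (Real.log_nonneg h3) (by linarith)

end Pool.Agent.Q260.DL
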