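import Pool.Agent.Q260.DL.One
import Pool.Agent.Y671.GL.Cnt

/-!
# One derivative decides: the Lindelof bound, newforms, the Ramanujan Xi function
-/

set_option autoImplicit false

namespace Pool.Agent.Q260.DL

open UpperHalfPlane hiding I
open MatrixGroups CongruenceSubgroup Filter Topology Complex
open Pool.Agent.Y671.GL Pool.Agent.Y771.NF
open Pool.Agent.Q260.DS Q240.OW Q240.GS
open scoped ComplexConjugate

section

variable {m : ℕ} {B N : ℝ} {μ : Fin m → ℂ} {Φ : ℂ → ℂ}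

/-- the Lindelof bound from the location of the zeros -/
theorem lind (h : OD m B N μ Φ) (hw : WX Φ 0) : ∀ ε : ℝ, 0 < ε → ∃ C : ℝ, ∀ t : ℝ, C ≤ t →
    ‖LQ 0 N μ (fun s => Φ (s - 1 / 2)) (1 / 2 + t * I)‖ ≤ Real.exp (ε * Real.log t) := by
  intro ε hε
  have hN := h.W.one_le
  obtain ⟨K, T1, hK, hT1, hcl⟩ := cnd_log hN h.hm μ
  obtain ⟨δ, y, C, hδ, hy, hC, H⟩ := lp m 0 (ε / K) B h.hm (by positivity) h.hB
  obtain ⟨T, hT⟩ := hw (δ / 2) (by linarith)
  refine ⟨max (max T1 (Real.exp (2 * C))) (T + y), fun t ht => ?_⟩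
  have t1 : T1 ≤ t := ((le_max_left _ _).trans (le_max_left _ _)).trans ht
  have t2 : Real.exp (2 * C) ≤ t := ((le_max_right _ _).trans (le_max_left _ _)).trans ht
  have t3 : T + y ≤ t := (le_max_right _ _).trans ht
  obtain ⟨l1, l2, l3⟩ := hcl t t1
  have hCl : C ≤ Real.log (cnd N μ t) := by
    have := (Real.le_log_iff_exp_le (by linarith)).2 t2
    linarith
  refine (H N μ _ h.W t hCl fun s hs hs1 => ?_).trans (Real.exp_le_exp.2 ?_)
  · by_contra hcon
    push Not at hcon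
    have h1 := (abs_le.1 hcon).1
    have h2 := hT (s - 1 / 2) (by rw [sub_half_im]; linarith) hs
    rw [sub_half_re] at h2
    have := le_abs_self (s.re - 1 / 2)
    linarith
  · have h3 : ε / K * Real.log (cnd N μ t) ≤ ε / K * (K * Real.log t) := mul_le_mul_of_nonneg_left l3 (by positivity)
    have h4 : ε / K * (K * Real.log t) = ε * Real.log t := by field_simp
    linarith

end

section

variable {N : ℕ} [NeZero N] {k : ℕ} {f : CuspForm (Gamma0 N : Subgroup (GL (Fin 2) ℝ)) (k : ℤ)} {ε : ℝ}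

/-- newforms with real coefficients -/
theorem od_newf (hk : 1 ≤ k) (hf : W388.IsNewf N k f ε) : ∃ (u : ℂ) (B : ℝ), u ≠ 0 ∧
    OD 2 B (N : ℝ) (muk k) (Xf f u) := by
  obtain ⟨u, hu, hue⟩ := exists_unit hf
  obtain ⟨Z, hFE, hL⟩ := exists_Z hk hf
  have hD := ldata hk hf hu hue hFE hL
  have hF := frm_newf hk hf
  have hG := gg_of hF hL hD
  have hstrip := strip_of hF hL hD
  have hC := hG.cg
  obtain ⟨K0, hK0, hslow⟩ := hC.slow
  have hne : ∃ z, Xf f u z ≠ 0 := by
    refine ⟨1, fun h0 => ?_⟩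
    have := hstrip 1 h0
    norm_num at this
  have hA := Pool.Agent.Y275.GL.had1 _ hC.cf.diff hC.cf.symm hne ⟨K0, hK0, hslow⟩ hstrip
  obtain ⟨B, hB1, hW⟩ := wp_newf hk hf hu hue
  exact ⟨u, B, hu, by norm_num, hB1, hW, hC.cf.diff, hC.cf.symm, (stripD (by norm_num) hC hA).2⟩

end

end Pool.Agent.Q260.DL
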