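import Pool.Agent.Q260.DT.All

/-!
# The exact threshold for averages over two shifts, for a general L-function, in a half plane
-/

set_option autoImplicit false

open Complex Filter Topology
open scoped ComplexConjugate

namespace Pool.Agent.Q260.DL

open Pool.Agent.Q260.DT (Rl Fa S_LI S_DD)

/-- The hypotheses. -/
structure TH (ϑ : ℝ) (X : ℂ → ℂ) (l g : ℝ → ℝ) : Prop where
  rl : Rl ϑ X l g
  symm : ∀ z : ℂ, X (-(conj z)) = conj (X z)
  strip : ∀ b : ℂ, X b = 0 → |b.re| ≤ 1 / 2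
  fs : ∀ (a : ℝ) (u z : ℂ), 0 < a → ‖u‖ = 1 → Fa X a u z = 0 → |z.re| ≤ 1 / 2

variable {ϑ : ℝ} {X : ℂ → ℂ} {l g : ℝ → ℝ}

/-- `|Re z| ≤ δ + ε` for the high zeros. -/
def WX (F : ℂ → ℂ) (δ : ℝ) : Prop :=
  ∀ ε : ℝ, 0 < ε → ∃ T : ℝ, ∀ z : ℂ, T ≤ z.im → F z = 0 → |z.re| ≤ δ + ε

/-- the high zeros are on the line -/
def LX (F : ℂ → ℂ) : Prop := ∃ T : ℝ, ∀ z : ℂ, T ≤ z.im → F z = 0 → z.re = 0

/-- the resonance -/
noncomputable def rs (ϑ a : ℝ) : ℂ := -cexp (2 * I * ((ϑ * a : ℝ) : ℂ))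

lemma conj_inv {u : ℂ} (hu : ‖u‖ = 1) : u * conj u = 1 := by
  rw [Complex.mul_conj, Complex.normSq_eq_norm_sq, hu]
  norm_num

lemma fa_symm (h : TH ϑ X l g) (a : ℝ) {u : ℂ} (hu : ‖u‖ = 1) (z : ℂ) :
    Fa X a u (-(conj z)) = u * conj (Fa X a u z) := by
  unfold Fa
  have e1 : (-(conj z) + a : ℂ) = -(conj (z - a)) := by
    rw [map_sub, Complex.conj_ofReal]
    ring
  have e2 : (-(conj z) - a : ℂ) = -(conj (z + a)) := by
    rw [map_add, Complex.conj_ofReal]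
    ring
  rw [e1, e2, h.symm, h.symm, map_add, map_mul]
  have := conj_inv hu
  linear_combination (-(conj (X (z - a)))) * this

lemma fa_refl (h : TH ϑ X l g) (a : ℝ) {u : ℂ} (hu : ‖u‖ = 1) {z : ℂ} (hz : Fa X a u z = 0) :
    ∃ w : ℂ, Fa X a u w = 0 ∧ w.re = |z.re| ∧ w.im = z.im := by
  rcases le_or_gt 0 z.re with h0 | h0
  · exact ⟨z, hz, (abs_of_nonneg h0).symm, rfl⟩
  · refine ⟨-(conj z), ?_, ?_, ?_⟩
    · rw [fa_symm h a hu, hz, map_zero, mul_zero]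
    · rw [Complex.neg_re, Complex.conj_re, abs_of_neg h0]
    · rw [Complex.neg_im, Complex.conj_im, neg_neg]

lemma x_refl (h : TH ϑ X l g) {z : ℂ} (hz : X z = 0) :
    ∃ w : ℂ, X w = 0 ∧ w.re = |z.re| ∧ w.im = z.im := by
  rcases le_or_gt 0 z.re with h0 | h0
  · exact ⟨z, hz, (abs_of_nonneg h0).symm, rfl⟩
  · refine ⟨-(conj z), ?_, ?_, ?_⟩
    · rw [h.symm, hz, map_zero]
    · rw [Complex.neg_re, Complex.conj_re, abs_of_neg h0]
    · rw [Complex.neg_im, Complex.conj_im, neg_neg]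

/-- the size of `l` -/
lemma l_le (h : TH ϑ X l g) : ∃ C : ℝ, 1 ≤ C ∧ ∀ y : ℝ, 3 ≤ y → l y ≤ C * Real.log y := by
  obtain ⟨K, A, y0, hK, -, hS⟩ := h.rl.sys
  refine ⟨|l 0| + 2 * K + 1, by have := abs_nonneg (l 0); linarith, fun y hy => ?_⟩
  have h1 := (abs_le.1 (hS.shift 0 y)).2
  rw [zero_add, abs_of_nonneg (by linarith : (0 : ℝ) ≤ y)] at h1
  have hl1 : 1 ≤ Real.log y := by
    rw [Real.le_log_iff_exp_le (by linarith)]
    linarith [Real.exp_one_lt_three]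
  have h2 : Real.log (2 + y) ≤ 2 * Real.log y := by
    rw [← Real.log_rpow (by linarith), show (2 : ℝ) = ((2 : ℕ) : ℝ) by norm_num, Real.rpow_natCast]
    refine Real.log_le_log (by push_cast; linarith) ?_
    push_cast
    nlinarith
  have h3 := le_abs_self (l 0)
  have h4 : K * Real.log (2 + y) ≤ K * (2 * Real.log y) := mul_le_mul_of_nonneg_left h2 (by linarith)
  have h5 : |l 0| ≤ |l 0| * Real.log y := le_mul_of_one_le_right (abs_nonneg _) hl1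
  nlinarith

/-- the dictionary -/
theorem dict (h : TH ϑ X l g) {a ε : ℝ} {u : ℂ} (ha : 0 < a) (hε : 0 < ε) (hu : ‖u‖ = 1) :
    ∃ C : ℝ, 3 ≤ C ∧
    (∀ (w : ℂ) (σ : ℝ), Fa X a u w = 0 → C ≤ w.im → 0 ≤ σ → σ + ε ≤ |w.re| →
      ∃ z : ℂ, X z = 0 ∧ σ + a < |z.re| ∧ |z.im - w.im| ≤ C) ∧
    (u ≠ rs ϑ a → ∀ (z : ℂ) (σ : ℝ), X z = 0 → C ≤ z.im → 0 ≤ σ → σ + a + ε ≤ |z.re| →
      ∃ w : ℂ, Fa X a u w = 0 ∧ σ < |w.re| ∧ |w.im - z.im| ≤ C * Real.log z.im) := by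
  obtain ⟨C, hC, h1, h2⟩ := Pool.Agent.Q260.DT.dd ϑ X l g h.rl a ε u ha hε hu
  obtain ⟨C1, hC1, hl⟩ := l_le h
  refine ⟨C * C1 + 3, by nlinarith, fun w σ hw hwC hσ hwσ => ?_, fun hne z σ hz hzC hσ hzσ => ?_⟩
  · obtain ⟨w', h3, h4, h5⟩ := fa_refl h a hu hw
    have h6 : w'.re ≤ 2 := by
      have := h.fs a u w' ha hu h3
      have := le_abs_self w'.re
      linarith
    obtain ⟨z, z1, z2, z3⟩ := h2 w' σ h3 (by rw [h5]; nlinarith) hσ (by rw [h4]; exact hwσ) h6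
    refine ⟨z, z1, z2.trans_le (le_abs_self _), ?_⟩
    rw [h5] at z3
    exact z3.trans (by nlinarith)
  · obtain ⟨z', h3, h4, h5⟩ := x_refl h hz
    obtain ⟨w, w1, w2, w3, w4⟩ := h1 hne z' σ h3 (by rw [h5]; nlinarith) hσ (by rw [h4]; exact hzσ)
    refine ⟨w, w1, w2.trans_le (le_abs_self _), ?_⟩
    rw [h5] at w4
    have hz3 : 3 ≤ z.im := by nlinarith
    have h6 := hl z.im hz3
    have h7 : 0 ≤ Real.log z.im := Real.log_nonneg (by linarith)
    refine w4.trans ((mul_le_mul_of_nonneg_left h6 (by linarith)).trans ?_)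
    nlinarith

/-- forwards -/
theorem within (h : TH ϑ X l g) {a δ : ℝ} {u : ℂ} (ha : 0 < a) (hδ : 0 ≤ δ) (hu : ‖u‖ = 1)
    (hX : WX X (a + δ)) : WX (Fa X a u) δ := by
  intro ε hε
  obtain ⟨C, hC, h1, -⟩ := dict h ha (half_pos hε) hu
  obtain ⟨T, hT⟩ := hX (ε / 4) (by linarith)
  refine ⟨max C (T + C), fun w hw hw0 => ?_⟩
  by_contra hcon
  push Not at hcon
  obtain ⟨z, z1, z2, z3⟩ := h1 w (δ + ε / 2) hw0 ((le_max_left _ _).trans hw) (by linarith) (by linarith)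
  have h4 := (abs_le.1 z3).1
  have h5 := (le_max_right C (T + C)).trans hw
  have := hT z (by linarith) z1
  linarith

lemma far (C T : ℝ) : ∃ Y : ℝ, 1 ≤ Y ∧ ∀ y : ℝ, Y ≤ y → T ≤ y - C * Real.log y := by
  have h1 : Tendsto (fun y : ℝ => Real.log y / y) atTop (𝓝 0) := Real.isLittleO_log_id_atTop.tendsto_div_nhds_zero
  have h2 := h1.eventually (gt_mem_nhds (show (0 : ℝ) < 1 / (2 * (|C| + 1)) by positivity))
  obtain ⟨Y, hY⟩ := Filter.eventually_atTop.1 h2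
  refine ⟨max (max Y 1) (2 * T), (le_max_right _ _).trans (le_max_left _ _), fun y hy => ?_⟩
  have hy1 : 1 ≤ y := ((le_max_right _ _).trans (le_max_left _ _)).trans hy
  have hy2 : 2 * T ≤ y := (le_max_right _ _).trans hy
  have h3 := hY y (((le_max_left _ _).trans (le_max_left _ _)).trans hy)
  rw [div_lt_iff₀ (by linarith), div_mul_eq_mul_div, one_mul, lt_div_iff₀ (by positivity)] at h3
  have h4 : 0 ≤ Real.log y := Real.log_nonneg hy1
  have h5 : C * Real.log y ≤ (|C| + 1) * Real.log y :=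
    mul_le_mul_of_nonneg_right (by have := le_abs_self C; linarith) h4
  nlinarith

/-- backwards -/
theorem within_conv (h : TH ϑ X l g) {a δ : ℝ} {u : ℂ} (ha : 0 < a) (hδ : 0 ≤ δ) (hu : ‖u‖ = 1)
    (hne : u ≠ rs ϑ a) (hF : WX (Fa X a u) δ) : WX X (a + δ) := by
  intro ε hε
  obtain ⟨C, hC, -, h1⟩ := dict h ha (half_pos hε) hu
  obtain ⟨T, hT⟩ := hF (ε / 4) (by linarith)
  obtain ⟨Y, hY1, hY⟩ := far C T
  refine ⟨max C Y, fun z hz hz0 => ?_⟩
  by_contra hcon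
  push Not at hcon
  obtain ⟨w, w1, w2, w3⟩ := h1 hne z (δ + ε / 2) hz0 ((le_max_left _ _).trans hz) (by linarith) (by linarith)
  have h4 := (abs_le.1 w3).1
  have h5 := hY z.im ((le_max_right _ _).trans hz)
  have := hT w (by linarith) w1
  linarith

/-- on the line -/
theorem line (h : TH ϑ X l g) {a θ : ℝ} {u : ℂ} (hθ : 0 ≤ θ) (ha : θ < a) (hu : ‖u‖ = 1)
    (hX : WX X θ) : LX (Fa X a u) := by
  obtain ⟨T1, hT1⟩ := hX ((a - θ) / 4) (by linarith)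
  have hne : ∀ z : ℂ, (θ + a) / 2 < z.re → T1 ≤ z.im → X z ≠ 0 := by
    intro z hz hz1 h0
    have h1 := hT1 z hz1 h0
    have h2 := le_abs_self z.re
    linarith
  obtain ⟨T2, hT2⟩ := Pool.Agent.Q260.DT.li ϑ X l g h.rl a ((θ + a) / 2) T1 u (by linarith) (by linarith) hu hne
  refine ⟨T2, fun z hz hz0 => ?_⟩
  by_contra hcon
  obtain ⟨w, w1, w2, w3⟩ := fa_refl h a hu hz0
  have h5 := h.fs a u w (by linarith) hu w1
  have h6 := le_abs_self w.re
  exact hT2 w (by rw [w2]; exact abs_pos.2 hcon) (by linarith) (by rw [w3]; exact hz) w1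

lemma lx_wx {F : ℂ → ℂ} (h : LX F) : WX F 0 := by
  intro ε hε
  obtain ⟨T, hT⟩ := h
  refine ⟨T, fun z hz h0 => ?_⟩
  rw [hT z hz h0, abs_zero]
  linarith

lemma wx_mono {F : ℂ → ℂ} {δ δ' : ℝ} (h : δ ≤ δ') (hF : WX F δ) : WX F δ' := by
  intro ε hε
  obtain ⟨T, hT⟩ := hF ε hε
  exact ⟨T, fun z hz h0 => (hT z hz h0).trans (by linarith)⟩

lemma wx_half (h : TH ϑ X l g) : WX X (1 / 2) := fun ε hε =>
  ⟨0, fun z _ h0 => (h.strip z h0).trans (by linarith)⟩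

/-- an interval without resonances for a given `u` -/
lemma rs_avoid (hϑ : 0 < ϑ) (u : ℂ) {θ θ' : ℝ} (hθ : 0 ≤ θ) (h : θ < θ') :
    ∃ a : ℝ, θ < a ∧ a < θ' ∧ u ≠ rs ϑ a := by
  -- two values of `a` whose phases differ by less than `2 π`
  obtain ⟨d, hd⟩ : ∃ d : ℝ, d = min ((θ' - θ) / 3) (Real.pi / (4 * ϑ)) := ⟨_, rfl⟩
  have hp := Real.pi_pos
  have hd0 : 0 < d := by
    rw [hd]
    exact lt_min (by linarith) (by positivity)
  have hd1 : d ≤ (θ' - θ) / 3 := by rw [hd]; exact min_le_left _ _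
  have hd2 : d ≤ Real.pi / (4 * ϑ) := by rw [hd]; exact min_le_right _ _
  by_cases h1 : u = rs ϑ (θ + d)
  · refine ⟨θ + 2 * d, by linarith, by linarith, fun h2 => ?_⟩
    rw [h1] at h2
    unfold rs at h2
    have h3 := neg_injective h2
    rw [Complex.exp_eq_exp_iff_exists_int] at h3
    obtain ⟨n, hn⟩ := h3
    have h4 : ϑ * (θ + d) = ϑ * (θ + 2 * d) + n * Real.pi := by
      have h5 := congrArg Complex.im hn
      simp at h5
      linarith
    have h6 : ϑ * d = -(n * Real.pi) := by linarith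
    have h7 : 0 < ϑ * d := by positivity
    have h8 : ϑ * d ≤ Real.pi / 4 := by
      calc ϑ * d ≤ ϑ * (Real.pi / (4 * ϑ)) := mul_le_mul_of_nonneg_left hd2 hϑ.le
        _ = Real.pi / 4 := by field_simp
    have h9 : (0 : ℝ) < -n := by
      by_contra hcon
      push Not at hcon
      nlinarith
    have h10 : (-n : ℝ) < 1 := by
      by_contra hcon
      push Not at hcon
      nlinarith
    have h11 : (0 : ℤ) < -n := by exact_mod_cast h9
    have h12 : (-n : ℤ) < 1 := by exact_mod_cast h10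
    omega
  · exact ⟨θ + d, by linarith, by linarith, h1⟩

/-- **The threshold.** -/
theorem threshold (h : TH ϑ X l g) (hϑ : 0 < ϑ) {θ : ℝ} (hθ : 0 ≤ θ) {u : ℂ} (hu : ‖u‖ = 1) :
    WX X θ ↔ ∀ a : ℝ, θ < a → LX (Fa X a u) := by
  refine ⟨fun hX a ha => line h hθ ha hu hX, fun hF ε hε => ?_⟩
  obtain ⟨a, h1, h2, h3⟩ := rs_avoid hϑ u hθ (show θ < θ + ε / 2 by linarith)
  have h4 := within_conv h (a := a) (δ := 0) (by linarith) le_rfl hu h3 (lx_wx (hF a h1))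
  obtain ⟨T, hT⟩ := h4 (ε / 2) (by linarith)
  exact ⟨T, fun z hz h0 => (hT z hz h0).trans (by linarith)⟩

end Pool.Agent.Q260.DL
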