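import Pool.Agent.Y771.NF.FinD
import Pool.Agent.Y771.NF.Delta
import Pool.Agent.Q240.OW.P1
import Pool.Agent.Q224.DT.RI
import Pool.Agent.Q278.ES.G
import Pool.Agent.Q260.DL.Thr

/-!
# Newforms with real coefficients belong to the class `WP`
-/

set_option autoImplicit false

namespace Pool.Agent.Q260.DL

open UpperHalfPlane hiding I
open MatrixGroups CongruenceSubgroup Filter Topology Complex
open Pool.Agent.Y671.GL Pool.Agent.Y771.NF
open Q240.OW (WP pp)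
open Pool.Agent.Q260.DT (Rl Fa)
open Pool.Agent.Q260.DS (gp)
open Q240.GS (el)
open scoped ComplexConjugate

variable {N : ℕ} [NeZero N] {k : ℕ} {f : CuspForm (Gamma0 N : Subgroup (GL (Fin 2) ℝ)) (k : ℤ)} {ε : ℝ}

theorem wp_newf (hk : 1 ≤ k) (hf : W388.IsNewf N k f ε) {u : ℂ} (hu : u ≠ 0) (hue : u * ε = conj u) :
    ∃ B : ℝ, 1 ≤ B ∧ WP 0 B (N : ℝ) (muk k) (fun s => Xf f u (s - 1 / 2)) := by
  obtain ⟨Z, hFE, hL⟩ := exists_Z hk hf
  obtain ⟨B0, r, hU⟩ := ul_of hk hf hu hue hFE hL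
  have hF := frm_newf hk hf
  obtain ⟨c, K, hc, hK, hb⟩ := rgt_of hF hL 1 one_pos
  have hr : 0 < ‖r‖ := by
    refine norm_pos_iff.2 fun h0 => ?_
    have := hU.ne 2 (by norm_num)
    rw [h0, zero_mul] at this
    exact this rfl
  have hBpos : (1 : ℝ) ≤ max 1 (max (‖r‖ * K) (1 / (‖r‖ * c))) := le_max_left _ _
  refine ⟨max 1 (max (‖r‖ * K) (1 / (‖r‖ * c))), hBpos, ?_⟩
  have hpp : ∀ s : ℂ, ‖pp 0 s‖ = 1 := fun s => by
    unfold pp
    rw [pow_zero, norm_one]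
  refine ⟨hU.hN, hU.re_le, hU.slow, hU.fe, fun s hs => ?_, fun s hs => ?_, fun s hs => hU.Xne (by linarith)⟩
  · have h1 := hb s (by linarith)
    have h2 := hU.eq s (by linarith)
    rw [h2, hpp, one_mul, norm_mul, norm_mul, mul_comm]
    refine mul_le_mul_of_nonneg_right ?_ (norm_nonneg _)
    exact (mul_le_mul_of_nonneg_left h1.2.1 hr.le).trans ((le_max_left _ _).trans (le_max_right _ _))
  · have h1 := hb s (by linarith)
    have h2 := hU.eq s (by linarith)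
    rw [h2, hpp, one_mul, norm_mul, norm_mul]
    have h3 : 1 ≤ max 1 (max (‖r‖ * K) (1 / (‖r‖ * c))) * (‖r‖ * ‖Z s‖) := by
      have h4 : 1 / (‖r‖ * c) ≤ max 1 (max (‖r‖ * K) (1 / (‖r‖ * c))) := (le_max_right _ _).trans (le_max_right _ _)
      have h5 : ‖r‖ * c ≤ ‖r‖ * ‖Z s‖ := mul_le_mul_of_nonneg_left h1.1 hr.le
      have h6 : 0 < ‖r‖ * c := by positivity
      calc (1 : ℝ) = 1 / (‖r‖ * c) * (‖r‖ * c) := by field_simp
        _ ≤ _ := mul_le_mul h4 h5 h6.le (by linarith)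
    have h7 := norm_nonneg (H353.E.gaf (N : ℝ) (muk k) s)
    nlinarith

/-- the hypotheses for the threshold -/
theorem th_newf (hk : 1 ≤ k) (hf : W388.IsNewf N k f ε) : ∃ (u : ℂ) (l g : ℝ → ℝ), u ≠ 0 ∧
    TH (Real.pi / 2) (Xf f u) l g := by
  obtain ⟨u, hu, hue⟩ := exists_unit hf
  obtain ⟨Z, hFE, hL⟩ := exists_Z hk hf
  have hD := ldata hk hf hu hue hFE hL
  have hF := frm_newf hk hf
  have hG := gg_of hF hL hD
  have hstrip := strip_of hF hL hD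
  have hC := hG.cg
  obtain ⟨K0, hK0, hslow⟩ := hC.slow
  have hne : ∃ z, Xf f u z ≠ 0 := by
    refine ⟨1, fun h0 => ?_⟩
    have := hstrip 1 h0
    norm_num at this
  have hA := Pool.Agent.Y275.GL.had1 _ hC.cf.diff hC.cf.symm hne ⟨K0, hK0, hslow⟩ hstrip
  have hB := Pool.Agent.Q278.ES.base_of (Pool.Agent.Q278.ES.lx_of (by norm_num) hG hstrip hA)
  obtain ⟨B, hB1, hW⟩ := wp_newf hk hf hu hue
  have hR := Pool.Agent.Q224.DTR.t_RI 2 0 B (N : ℝ) (muk k) _ (by norm_num) hB1 hW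
  have e1 : (fun z : ℂ => Xf f u (1 / 2 + z - 1 / 2)) = Xf f u := by
    funext z
    congr 1
    ring
  have e2 : Real.pi * ((2 : ℕ) : ℝ) / 4 = Real.pi / 2 := by
    push_cast
    ring
  rw [e1, e2] at hR
  refine ⟨u, _, _, hu, hR, hC.cf.symm, hstrip, fun a v z ha hv h0 => ?_⟩
  refine hB.fs_strip ha (ω := -v) (by rw [norm_neg, hv]) ?_
  unfold Pool.Agent.Q278.ES.Fs
  unfold Fa at h0
  rw [← h0]
  ring

end Pool.Agent.Q260.DL
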